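import Pool.Agent.H295R3.W.FinalB

/-!
# `S(x) = ∑_{n ≤ x} (-2)^Ω(n)`: `α = limsup |S(x)|/x ≥ 11/20`

The known bound is `α ≥ 1/2`.  Proof.  The Dirichlet series of `(-2)^Ω(n)` has simple poles at
`s_k = 1 + (2k+1) π i / log 2`.  The numbers `c_k = Res_{s_k} / s_k` are the Fourier coefficients of the limiting
(antiperiodic) function of `S(e^u)/e^u`, so the Toeplitz matrix formed with `c_0, ..., c_3` has norm at most `α`
(Laplace transform and Cauchy-Schwarz).  The numbers `c_0, ..., c_3` are computed with rigorous error bounds from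
`ζ(s_k)` (Euler-Maclaurin) and an absolutely convergent Euler product; the matrix has norm about `0.59`.
-/

set_option autoImplicit false

open Finset ArithmeticFunction Filter Topology

namespace Pool.Agent.Results.MP_5db4ad_nt.LowerBound

/-- `S(x) = ∑_{1 ≤ n ≤ x} (-2)^Ω(n)` -/
noncomputable def S (x : ℝ) : ℝ := ∑ n ∈ Icc 1 ⌊x⌋₊, (-2 : ℝ) ^ (cardFactors n)

/-- `α = limsup |S(x)|/x ∈ [0, ∞]` -/
noncomputable def alpha : EReal := limsup (fun x : ℝ => ((|S x| / x : ℝ) : EReal)) atTop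

theorem result : ((11 / 20 : ℝ) : EReal) ≤ alpha := by
  by_contra hlt
  rw [not_le] at hlt
  have hev : ∀ᶠ x : ℝ in atTop, ((|S x| / x : ℝ) : EReal) < ((11 / 20 : ℝ) : EReal) :=
    eventually_lt_of_limsup_lt hlt
  obtain ⟨x₀, h0⟩ := (hev.and (eventually_ge_atTop (1 : ℝ))).exists_forall_of_atTop
  refine Pool.Agent.H295R3.W.lower x₀ fun x hx => ?_
  obtain ⟨h1, h2⟩ := h0 x hx
  have h3 : |S x| / x < 11 / 20 := EReal.coe_lt_coe_iff.1 h1
  rw [div_lt_iff₀ (by linarith)] at h3
  exact h3.le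

end Pool.Agent.Results.MP_5db4ad_nt.LowerBound
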